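import Mathlib

/-!
# Threshold for large subsets avoiding bad triangles in Hilbert space

Property `P(δ)` fails for every `δ < 1` and holds for every `δ ≥ 1`. So `δ* = 1`, and the supremum
is not attained.

Failure for `δ < 1`: the points are the elements `x` of the torus `(ℤ/N)^D`, mapped to
`(ρ / √D) (e(x_1), …, e(x_D))` with `e(a) = exp(2 π i a / N)`. The points `x`, `x + 1`, `x + 2`
(`1 = (1, …, 1)`) are nearly collinear with consecutive distances slightly smaller than one. By a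
variance inequality, for every set `A` of positive density all but a few points of the torus can be
moved into `A` by changing `O(√D)` coordinates, which is a small move in the Hilbert space.

`P(δ)` for `δ ≥ 1`: a bad triangle consists of the end points and the midpoint of a segment of length
two. Colour the points by `⌊|x|²⌋` modulo four.
-/

set_option autoImplicit false

open Finset

namespace Pool.Agent.Results.MP_8cfbc5_co.Threshold

/-- The real Hilbert space `ℓ²`. -/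
abbrev H : Type := lp (fun _ : ℕ => ℝ) 2

/-- `x, y, z` form a bad triangle: two of the three distances are `≤ 1`, the remaining one is
`≥ 1 + δ`. -/
def Bad (δ : ℝ) (x y z : H) : Prop :=
  (‖x - y‖ ≤ 1 ∧ ‖y - z‖ ≤ 1 ∧ 1 + δ ≤ ‖x - z‖) ∨
  (‖x - y‖ ≤ 1 ∧ ‖x - z‖ ≤ 1 ∧ 1 + δ ≤ ‖y - z‖) ∨
  (‖x - z‖ ≤ 1 ∧ ‖y - z‖ ≤ 1 ∧ 1 + δ ≤ ‖x - y‖)

/-- Property `P(δ)`. -/
def P (δ : ℝ) : Prop :=
  ∃ c : ℝ, 0 < c ∧ ∀ n : ℕ, 1 ≤ n → ∀ x : Fin n → H, ∃ I : Finset (Fin n),
    c * n ≤ (I.card : ℝ) ∧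
      ∀ i ∈ I, ∀ j ∈ I, ∀ k ∈ I, i ≠ j → j ≠ k → i ≠ k → ¬ Bad δ (x i) (x j) (x k)

/-! ### `P(δ)` holds for `δ ≥ 1` -/

lemma key_mid {x y z : H} {δ : ℝ} (hδ : 1 ≤ δ) (h1 : ‖x - y‖ ≤ 1) (h2 : ‖y - z‖ ≤ 1)
    (h3 : 1 + δ ≤ ‖x - z‖) : ‖x‖ ^ 2 + ‖z‖ ^ 2 - 2 * ‖y‖ ^ 2 = 2 := by
  set u := x - y with hu
  set v := y - z with hv
  have hxz : x - z = u + v := by rw [hu, hv]; abel
  have hpar : ‖u + v‖ ^ 2 + ‖u - v‖ ^ 2 = 2 * (‖u‖ ^ 2 + ‖v‖ ^ 2) :=
    parallelogram_law_with_norm ℝ u v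
  rw [hxz] at h3
  have h0u := norm_nonneg u
  have h0v := norm_nonneg v
  have h0 := norm_nonneg (u - v)
  have htri := norm_add_le u v
  have hu1 : ‖u‖ = 1 := by nlinarith
  have hv1 : ‖v‖ = 1 := by nlinarith
  have huv : ‖u + v‖ = 2 := by nlinarith
  have hz : ‖u - v‖ = 0 := by
    rw [hu1, hv1, huv] at hpar
    nlinarith
  have huv' : u = v := by rwa [norm_eq_zero, sub_eq_zero] at hz
  have hx : x = y + u := by rw [hu]; abel
  have hzz : z = y - u := by rw [huv', hv]; abel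
  have hpar2 : ‖y + u‖ ^ 2 + ‖y - u‖ ^ 2 = 2 * (‖y‖ ^ 2 + ‖u‖ ^ 2) :=
    parallelogram_law_with_norm ℝ y u
  rw [← hx, ← hzz, hu1] at hpar2
  nlinarith

lemma no_bad_mod {a b c : ℝ} (h : a + b - 2 * c = 2)
    (h1 : ⌊a⌋ % 4 = ⌊c⌋ % 4) (h2 : ⌊b⌋ % 4 = ⌊c⌋ % 4) : False := by
  have ha := Int.floor_le a
  have ha' := Int.lt_floor_add_one a
  have hb := Int.floor_le b
  have hb' := Int.lt_floor_add_one b
  have hc := Int.floor_le c
  have hc' := Int.lt_floor_add_one c
  obtain ⟨p, hp⟩ : ∃ p : ℤ, ⌊a⌋ - ⌊c⌋ = 4 * p := ⟨(⌊a⌋ - ⌊c⌋) / 4, by omega⟩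
  obtain ⟨q, hq⟩ : ∃ q : ℤ, ⌊b⌋ - ⌊c⌋ = 4 * q := ⟨(⌊b⌋ - ⌊c⌋) / 4, by omega⟩
  have hp' : (⌊a⌋ : ℝ) - ⌊c⌋ = 4 * p := by exact_mod_cast hp
  have hq' : (⌊b⌋ : ℝ) - ⌊c⌋ = 4 * q := by exact_mod_cast hq
  have h3 : (0 : ℝ) < 4 * ((p : ℝ) + q) := by nlinarith
  have h4 : 4 * ((p : ℝ) + q) < 4 := by nlinarith
  have h5 : (0 : ℝ) < ((p + q : ℤ) : ℝ) := by push_cast; linarith
  have h6 : ((p + q : ℤ) : ℝ) < 1 := by push_cast; linarith
  have h7 : 0 < p + q := by exact_mod_cast h5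
  have h8 : p + q < 1 := by exact_mod_cast h6
  omega

lemma P_of_one_le {δ : ℝ} (hδ : 1 ≤ δ) : P δ := by
  refine ⟨1 / 4, by norm_num, ?_⟩
  intro n hn x
  have hex : ∃ y ∈ (Finset.Ico (0 : ℤ) 4), (1 / 4 : ℝ) * n ≤
      (({i ∈ (univ : Finset (Fin n)) | ⌊‖x i‖ ^ 2⌋ % 4 = y}).card : ℝ) := by
    by_contra hcon
    push Not at hcon
    have hsum : (n : ℕ) = ∑ y ∈ Finset.Ico (0 : ℤ) 4,
        ({i ∈ (univ : Finset (Fin n)) | ⌊‖x i‖ ^ 2⌋ % 4 = y}).card := by
      rw [← Finset.card_eq_sum_card_fiberwise]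
      · simp
      · intro i _
        simp only [Finset.coe_Ico, Set.mem_Ico]
        constructor
        · exact Int.emod_nonneg _ (by norm_num)
        · exact Int.emod_lt_of_pos _ (by norm_num)
    have hsum' : (n : ℝ) = ∑ y ∈ Finset.Ico (0 : ℤ) 4,
        (({i ∈ (univ : Finset (Fin n)) | ⌊‖x i‖ ^ 2⌋ % 4 = y}).card : ℝ) := by
      exact_mod_cast hsum
    have hlt : ∑ y ∈ Finset.Ico (0 : ℤ) 4,
        (({i ∈ (univ : Finset (Fin n)) | ⌊‖x i‖ ^ 2⌋ % 4 = y}).card : ℝ) <
        ∑ y ∈ Finset.Ico (0 : ℤ) 4, (1 / 4 : ℝ) * n :=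
      Finset.sum_lt_sum_of_nonempty ⟨0, by simp⟩ hcon
    simp only [Finset.sum_const, Int.card_Ico, nsmul_eq_mul] at hlt
    rw [← hsum'] at hlt
    have h4 : ((Int.toNat (4 - 0) : ℕ) : ℝ) = 4 := by
      have : Int.toNat (4 - 0) = 4 := rfl
      rw [this]; norm_num
    rw [h4] at hlt
    linarith
  obtain ⟨y, _, hy⟩ := hex
  refine ⟨_, hy, ?_⟩
  intro i hi j hj k hk _ _ _ hbad
  simp only [Finset.mem_filter, Finset.mem_univ, true_and] at hi hj hk
  rcases hbad with ⟨h1, h2, h3⟩ | ⟨h1, h2, h3⟩ | ⟨h1, h2, h3⟩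
  · exact no_bad_mod (key_mid hδ h1 h2 h3) (hi.trans hj.symm) (hk.trans hj.symm)
  · rw [norm_sub_rev] at h1
    exact no_bad_mod (key_mid hδ h1 h2 h3) (hj.trans hi.symm) (hk.trans hi.symm)
  · rw [norm_sub_rev (x j) (x k)] at h2
    exact no_bad_mod (key_mid hδ h1 h2 h3) (hi.trans hk.symm) (hj.trans hk.symm)

/-! ### Variance inequality for functions with bounded differences -/

section Var

set_option linter.unusedSectionVars false
set_option linter.unusedSimpArgs false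

variable {Ω : Type} [Fintype Ω] [DecidableEq Ω] [Nonempty Ω]

lemma hamming_cons {D : ℕ} (a : Ω) (x y : Fin D → Ω) :
    hammingDist (Fin.cons a x : Fin (D + 1) → Ω) (Fin.cons a y : Fin (D + 1) → Ω) =
      hammingDist x y := by
  unfold hammingDist
  rw [Fin.univ_succ]
  rw [Finset.filter_cons]
  simp [Finset.filter_map, Finset.card_map, Function.comp_def]

lemma hamming_cons_le {D : ℕ} (a b : Ω) (x : Fin D → Ω) :
    hammingDist (Fin.cons a x : Fin (D + 1) → Ω) (Fin.cons b x : Fin (D + 1) → Ω) ≤ 1 := by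
  unfold hammingDist
  rw [Fin.univ_succ]
  rw [Finset.filter_cons]
  split_ifs with h
  · simp [Finset.filter_map, Function.comp_def]
  · simp [Finset.filter_map, Function.comp_def]

lemma sum_cons {D : ℕ} (F : (Fin (D + 1) → Ω) → ℝ) :
    ∑ x, F x = ∑ a : Ω, ∑ x : Fin D → Ω, F (Fin.cons a x) := by
  rw [← Fintype.sum_prod_type']
  exact (Fintype.sum_equiv (Fin.consEquiv (fun _ : Fin (D + 1) => Ω)) _ _ (fun _ => rfl)).symm

lemma variance_bound (D : ℕ) (f : (Fin D → Ω) → ℝ)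
    (hf : ∀ x y, |f x - f y| ≤ hammingDist x y) :
    ∑ x, ∑ y, (f x - f y) ^ 2 ≤ 2 * D * ((Fintype.card Ω : ℝ) ^ D) ^ 2 := by
  induction D with
  | zero =>
    have : ∀ x y : Fin 0 → Ω, x = y := fun x y => Subsingleton.elim _ _
    simp [this _ (fun i => i.elim0)]
  | succ D ih =>
    set K : ℝ := (Fintype.card Ω : ℝ) with hK
    have hKpos : 0 < K := by rw [hK]; exact_mod_cast Fintype.card_pos
    set M : ℝ := K ^ D with hM
    have hcardM : ((univ : Finset (Fin D → Ω)).card : ℝ) = M := by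
      rw [hM, hK]; simp
    set g : (Fin D → Ω) → ℝ := fun x => (∑ a : Ω, f (Fin.cons a x)) / K with hg
    have hgl : ∀ x y, |g x - g y| ≤ hammingDist x y := by
      intro x y
      rw [hg]
      simp only
      rw [← sub_div, ← Finset.sum_sub_distrib, abs_div, abs_of_pos hKpos, div_le_iff₀ hKpos]
      calc |∑ a : Ω, (f (Fin.cons a x) - f (Fin.cons a y))|
          ≤ ∑ a : Ω, |f (Fin.cons a x) - f (Fin.cons a y)| := Finset.abs_sum_le_sum_abs _ _
        _ ≤ ∑ _a : Ω, (hammingDist x y : ℝ) := by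
            apply Finset.sum_le_sum
            intro a _
            have := hf (Fin.cons a x) (Fin.cons a y)
            rwa [hamming_cons] at this
        _ = hammingDist x y * K := by rw [Finset.sum_const, nsmul_eq_mul, hK]; simp; ring
    have hih := ih g hgl
    -- deviations
    set h : Ω → (Fin D → Ω) → ℝ := fun a x => f (Fin.cons a x) - g x with hh
    have hsum0 : ∀ x, ∑ a : Ω, h a x = 0 := by
      intro x
      rw [hh]
      simp only
      rw [Finset.sum_sub_distrib, Finset.sum_const, nsmul_eq_mul, hg]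
      simp only
      rw [Finset.card_univ, ← hK]
      field_simp
      ring
    have habs : ∀ a x, |h a x| ≤ 1 := by
      intro a x
      have : h a x = (∑ b : Ω, (f (Fin.cons a x) - f (Fin.cons b x))) / K := by
        rw [hh, hg]
        simp only
        rw [Finset.sum_sub_distrib, Finset.sum_const, nsmul_eq_mul, Finset.card_univ, ← hK]
        field_simp
      rw [this, abs_div, abs_of_pos hKpos, div_le_one hKpos]
      calc |∑ b : Ω, (f (Fin.cons a x) - f (Fin.cons b x))|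
          ≤ ∑ b : Ω, |f (Fin.cons a x) - f (Fin.cons b x)| := Finset.abs_sum_le_sum_abs _ _
        _ ≤ ∑ _b : Ω, (1 : ℝ) := by
            apply Finset.sum_le_sum
            intro b _
            refine (hf _ _).trans ?_
            exact_mod_cast hamming_cons_le a b x
        _ = K := by rw [Finset.sum_const, nsmul_eq_mul, hK]; simp
    have hsq : ∀ a x, h a x ^ 2 ≤ 1 := by
      intro a x
      have := habs a x
      rw [← sq_abs]
      nlinarith [abs_nonneg (h a x)]
    have hfh : ∀ a x, f (Fin.cons a x) = g x + h a x := by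
      intro a x; rw [hh]; simp only; ring
    -- expand
    have hexp : ∀ x y : Fin D → Ω,
        ∑ a : Ω, ∑ b : Ω, (f (Fin.cons a x) - f (Fin.cons b y)) ^ 2 =
          K ^ 2 * (g x - g y) ^ 2 + K * ∑ a, h a x ^ 2 + K * ∑ b, h b y ^ 2 := by
      intro x y
      have hb : ∀ a : Ω, ∑ b : Ω, (f (Fin.cons a x) - f (Fin.cons b y)) ^ 2 =
          K * (g x - g y) ^ 2 + 2 * K * (g x - g y) * h a x + K * h a x ^ 2 +
            ∑ b, h b y ^ 2 := by
        intro a
        have : ∀ b : Ω, (f (Fin.cons a x) - f (Fin.cons b y)) ^ 2 =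
            ((g x - g y) ^ 2 + 2 * (g x - g y) * h a x + h a x ^ 2) -
              2 * (g x - g y + h a x) * h b y + h b y ^ 2 := by
          intro b; rw [hfh, hfh]; ring
        rw [Finset.sum_congr rfl (fun b _ => this b), Finset.sum_add_distrib,
          Finset.sum_sub_distrib, ← Finset.mul_sum, hsum0 y, Finset.sum_const, nsmul_eq_mul,
          Finset.card_univ, ← hK]
        ring
      rw [Finset.sum_congr rfl (fun a _ => hb a), Finset.sum_add_distrib,
        Finset.sum_add_distrib, Finset.sum_add_distrib]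
      simp only [← Finset.mul_sum]
      rw [hsum0 x, Finset.sum_const, Finset.sum_const, nsmul_eq_mul, nsmul_eq_mul,
        Finset.card_univ, ← hK]
      ring
    have hle : ∀ x y : Fin D → Ω,
        ∑ a : Ω, ∑ b : Ω, (f (Fin.cons a x) - f (Fin.cons b y)) ^ 2 ≤
          K ^ 2 * (g x - g y) ^ 2 + 2 * K ^ 2 := by
      intro x y
      rw [hexp]
      have h1 : ∑ a, h a x ^ 2 ≤ K := by
        calc ∑ a, h a x ^ 2 ≤ ∑ _a : Ω, (1 : ℝ) := Finset.sum_le_sum (fun a _ => hsq a x)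
          _ = K := by rw [Finset.sum_const, nsmul_eq_mul, hK]; simp
      have h2 : ∑ a, h a y ^ 2 ≤ K := by
        calc ∑ a, h a y ^ 2 ≤ ∑ _a : Ω, (1 : ℝ) := Finset.sum_le_sum (fun a _ => hsq a y)
          _ = K := by rw [Finset.sum_const, nsmul_eq_mul, hK]; simp
      nlinarith
    have hfinal : ∑ x, ∑ y, (f x - f y) ^ 2 =
        ∑ x : Fin D → Ω, ∑ y : Fin D → Ω, ∑ a : Ω, ∑ b : Ω,
          (f (Fin.cons a x) - f (Fin.cons b y)) ^ 2 := by
      rw [sum_cons]
      have : ∀ z, ∑ y, (f z - f y) ^ 2 = ∑ b : Ω, ∑ y : Fin D → Ω, (f z - f (Fin.cons b y)) ^ 2 :=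
        fun z => sum_cons _
      simp only [this]
      rw [Finset.sum_comm]
      apply Finset.sum_congr rfl
      intro x _
      calc ∑ a : Ω, ∑ b : Ω, ∑ y : Fin D → Ω, (f (Fin.cons a x) - f (Fin.cons b y)) ^ 2
          = ∑ a : Ω, ∑ y : Fin D → Ω, ∑ b : Ω, (f (Fin.cons a x) - f (Fin.cons b y)) ^ 2 := by
            apply Finset.sum_congr rfl
            intro a _
            rw [Finset.sum_comm]
        _ = _ := by rw [Finset.sum_comm]
    rw [hfinal]
    calc ∑ x : Fin D → Ω, ∑ y : Fin D → Ω, ∑ a : Ω, ∑ b : Ω,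
          (f (Fin.cons a x) - f (Fin.cons b y)) ^ 2
        ≤ ∑ x : Fin D → Ω, ∑ y : Fin D → Ω, (K ^ 2 * (g x - g y) ^ 2 + 2 * K ^ 2) :=
          Finset.sum_le_sum (fun x _ => Finset.sum_le_sum (fun y _ => hle x y))
      _ = K ^ 2 * (∑ x : Fin D → Ω, ∑ y : Fin D → Ω, (g x - g y) ^ 2) + 2 * K ^ 2 * M ^ 2 := by
          simp only [Finset.sum_add_distrib, Finset.sum_const, nsmul_eq_mul, Finset.mul_sum,
            hcardM]
          ring
      _ ≤ K ^ 2 * (2 * D * M ^ 2) + 2 * K ^ 2 * M ^ 2 := by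
          have : 0 ≤ K ^ 2 := by positivity
          nlinarith [hih]
      _ = 2 * ((D + 1 : ℕ) : ℝ) * (K ^ (D + 1)) ^ 2 := by
          rw [hM]; push_cast; ring

/-- Few points of `Ω^D` are far from a large set. -/
lemma far_points (D : ℕ) (A : Finset (Fin D → Ω)) (hA : A.Nonempty) (t : ℝ) (ht : 0 < t)
    (B : Finset (Fin D → Ω)) (hB : ∀ x ∈ B, ∀ a ∈ A, t ≤ hammingDist x a) :
    (A.card : ℝ) * B.card * t ^ 2 ≤ D * ((Fintype.card Ω : ℝ) ^ D) ^ 2 := by
  set f : (Fin D → Ω) → ℝ := fun x => A.inf' hA (fun a => (hammingDist x a : ℝ)) with hf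
  have hlip : ∀ x y, |f x - f y| ≤ hammingDist x y := by
    have key : ∀ x y, f x ≤ f y + hammingDist x y := by
      intro x y
      obtain ⟨a, ha, hay⟩ := Finset.exists_mem_eq_inf' hA (fun a => (hammingDist y a : ℝ))
      have h1 : f x ≤ hammingDist x a := Finset.inf'_le _ ha
      have h2 : f y = hammingDist y a := hay
      have h3 : (hammingDist x a : ℝ) ≤ hammingDist x y + hammingDist y a := by
        exact_mod_cast hammingDist_triangle x y a
      linarith
    intro x y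
    rw [abs_le]
    have h1 := key x y
    have h2 := key y x
    rw [hammingDist_comm] at h2
    constructor <;> linarith
  have hfA : ∀ a ∈ A, f a = 0 := by
    intro a ha
    apply le_antisymm
    · have : f a ≤ (hammingDist a a : ℝ) := Finset.inf'_le _ ha
      simpa using this
    · apply Finset.le_inf'
      intro b _
      positivity
  have hfB : ∀ x ∈ B, t ≤ f x := by
    intro x hx
    apply Finset.le_inf'
    intro a ha
    exact hB x hx a ha
  have hvar := variance_bound D f hlip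
  have h1 : ∑ x ∈ A, ∑ y ∈ B, (f x - f y) ^ 2 + ∑ x ∈ B, ∑ y ∈ A, (f x - f y) ^ 2 ≤
      ∑ x, ∑ y, (f x - f y) ^ 2 := by
    have hdisj : Disjoint A B := by
      rw [Finset.disjoint_left]
      intro a ha hb
      have := hfB a hb
      rw [hfA a ha] at this
      linarith
    calc ∑ x ∈ A, ∑ y ∈ B, (f x - f y) ^ 2 + ∑ x ∈ B, ∑ y ∈ A, (f x - f y) ^ 2
        ≤ ∑ x ∈ A, ∑ y, (f x - f y) ^ 2 + ∑ x ∈ B, ∑ y, (f x - f y) ^ 2 := by
          apply add_le_add <;>
          · apply Finset.sum_le_sum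
            intro x _
            apply Finset.sum_le_sum_of_subset_of_nonneg (Finset.subset_univ _)
            intro _ _ _
            positivity
      _ = ∑ x ∈ A ∪ B, ∑ y, (f x - f y) ^ 2 := (Finset.sum_union hdisj).symm
      _ ≤ ∑ x, ∑ y, (f x - f y) ^ 2 := by
          apply Finset.sum_le_sum_of_subset_of_nonneg (Finset.subset_univ _)
          intro _ _ _
          positivity
  have h2 : (A.card : ℝ) * B.card * t ^ 2 ≤ ∑ x ∈ A, ∑ y ∈ B, (f x - f y) ^ 2 := by
    calc (A.card : ℝ) * B.card * t ^ 2 = ∑ _x ∈ A, ∑ _y ∈ B, t ^ 2 := by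
          simp only [Finset.sum_const, nsmul_eq_mul]; ring
      _ ≤ _ := by
          apply Finset.sum_le_sum
          intro x hx
          apply Finset.sum_le_sum
          intro y hy
          have := hfB y hy
          rw [hfA x hx]
          nlinarith
  have h3 : (A.card : ℝ) * B.card * t ^ 2 ≤ ∑ x ∈ B, ∑ y ∈ A, (f x - f y) ^ 2 := by
    calc (A.card : ℝ) * B.card * t ^ 2 = ∑ _x ∈ B, ∑ _y ∈ A, t ^ 2 := by
          simp only [Finset.sum_const, nsmul_eq_mul]; ring
      _ ≤ _ := by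
          apply Finset.sum_le_sum
          intro x hx
          apply Finset.sum_le_sum
          intro y hy
          have := hfB x hx
          rw [hfA y hy]
          nlinarith
  nlinarith

end Var

/-! ### The points -/

/-- Every finite dimensional real inner product space embeds in `ℓ²`. -/
lemma exists_isometry (V : Type) [NormedAddCommGroup V] [InnerProductSpace ℝ V]
    [FiniteDimensional ℝ V] : Nonempty (V →ₗᵢ[ℝ] H) := by
  classical
  let b := stdOrthonormalBasis ℝ V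
  let B : HilbertBasis ℕ ℝ H := HilbertBasis.ofRepr (LinearIsometryEquiv.refl ℝ H)
  let f : V →ₗ[ℝ] H := b.toBasis.constr ℝ (fun i => B (i : ℕ))
  refine ⟨LinearMap.isometryOfOrthonormal f (v := b.toBasis) ?_ ?_⟩
  · simpa using b.orthonormal
  · have : (f ∘ b.toBasis) = fun i : Fin (Module.finrank ℝ V) => B (i : ℕ) := by
      funext i
      simp only [f, Function.comp_apply, Module.Basis.constr_basis]
    rw [this]
    exact B.orthonormal.comp _ Fin.val_injective

/-- The character `a ↦ exp (2 π i a / N)` with values in the complex numbers. -/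
noncomputable def e {N : ℕ} [NeZero N] (a : ZMod N) : ℂ := (ZMod.toCircle a : ℂ)

lemma norm_e {N : ℕ} [NeZero N] (a : ZMod N) : ‖e a‖ = 1 := Circle.norm_coe _

lemma e_add {N : ℕ} [NeZero N] (a b : ZMod N) : e (a + b) = e a * e b := by
  simp [e, AddChar.map_add_eq_mul]

lemma e_one_sub {N : ℕ} [NeZero N] : ‖e (1 : ZMod N) - 1‖ ≤ 2 * Real.pi / N := by
  have h : e (1 : ZMod N) = Complex.exp ((2 * Real.pi / N : ℝ) * Complex.I) := by
    unfold e
    have := ZMod.toCircle_intCast (N := N) 1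
    simp only [Int.cast_one] at this
    rw [this]
    congr 1
    push_cast
    ring
  rw [h]
  have h2 := Real.norm_exp_I_mul_ofReal_sub_one_le (x := 2 * Real.pi / N)
  rw [mul_comm] at h2
  refine h2.trans ?_
  rw [Real.norm_eq_abs, abs_of_nonneg (by positivity)]

lemma e_one_ne {N : ℕ} [NeZero N] (hN : 2 ≤ N) : 0 < ‖e (1 : ZMod N) - 1‖ := by
  rw [norm_pos_iff, sub_ne_zero]
  intro h
  have h1 : (ZMod.toCircle (1 : ZMod N)) = ZMod.toCircle (0 : ZMod N) := by
    apply Subtype.ext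
    simp only [AddChar.map_zero_eq_one, OneMemClass.coe_one]
    exact h
  have h2 := ZMod.injective_toCircle h1
  have : Fact (1 < N) := ⟨by omega⟩
  exact one_ne_zero h2

/-- The points in `ℂ^D`. -/
noncomputable def pt {N : ℕ} [NeZero N] (D : ℕ) (r : ℝ) (x : Fin D → ZMod N) :
    PiLp 2 (fun _ : Fin D => ℂ) :=
  WithLp.toLp 2 (fun k => ((r / Real.sqrt D : ℝ) : ℂ) * e (x k))

lemma pt_sub_sq {N : ℕ} [NeZero N] (D : ℕ) (r : ℝ) (x y : Fin D → ZMod N) :
    ‖pt D r x - pt D r y‖ ^ 2 = r ^ 2 / D * ∑ k, ‖e (x k) - e (y k)‖ ^ 2 := by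
  rw [PiLp.norm_sq_eq_of_L2]
  rw [Finset.mul_sum]
  apply Finset.sum_congr rfl
  intro k _
  simp only [pt, PiLp.sub_apply]
  rw [← mul_sub, norm_mul, mul_pow, Complex.norm_real, Real.norm_eq_abs, sq_abs, div_pow,
    Real.sq_sqrt (Nat.cast_nonneg _)]

lemma pt_shift {N : ℕ} [NeZero N] (D : ℕ) (hD : 0 < D) (r : ℝ) (hr : 0 ≤ r)
    (x : Fin D → ZMod N) (c : ZMod N) :
    ‖pt D r (fun k => x k + c) - pt D r x‖ = r * ‖e c - 1‖ := by
  have h : ‖pt D r (fun k => x k + c) - pt D r x‖ ^ 2 = (r * ‖e c - 1‖) ^ 2 := by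
    rw [pt_sub_sq]
    have : ∀ k, ‖e (x k + c) - e (x k)‖ ^ 2 = ‖e c - 1‖ ^ 2 := by
      intro k
      rw [e_add]
      have : e (x k) * e c - e (x k) = e (x k) * (e c - 1) := by ring
      rw [this, norm_mul, norm_e, one_mul]
    simp only [this, Finset.sum_const, Finset.card_univ, Fintype.card_fin, nsmul_eq_mul]
    have hD' : (D : ℝ) ≠ 0 := by positivity
    field_simp
  have h1 : 0 ≤ ‖pt D r (fun k => x k + c) - pt D r x‖ := norm_nonneg _
  have h2 : 0 ≤ r * ‖e c - 1‖ := by positivity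
  exact (sq_eq_sq₀ h1 h2).1 h

lemma pt_hamming {N : ℕ} [NeZero N] (D : ℕ) (r : ℝ) (x y : Fin D → ZMod N) :
    ‖pt D r x - pt D r y‖ ^ 2 ≤ 4 * r ^ 2 / D * hammingDist x y := by
  rw [pt_sub_sq]
  have : ∑ k, ‖e (x k) - e (y k)‖ ^ 2 ≤ 4 * (hammingDist x y : ℝ) := by
    unfold hammingDist
    rw [Finset.card_filter]
    push_cast
    rw [Finset.mul_sum]
    apply Finset.sum_le_sum
    intro k _
    split_ifs with h
    · have : ‖e (x k) - e (y k)‖ ≤ 2 := by
        refine (norm_sub_le _ _).trans ?_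
        rw [norm_e, norm_e]; norm_num
      nlinarith [norm_nonneg (e (x k) - e (y k))]
    · have h' : x k = y k := by simpa using h
      rw [h']; simp
  have h0 : 0 ≤ r ^ 2 / D := by positivity
  calc r ^ 2 / D * ∑ k, ‖e (x k) - e (y k)‖ ^ 2 ≤ r ^ 2 / D * (4 * (hammingDist x y : ℝ)) :=
        mul_le_mul_of_nonneg_left this h0
    _ = _ := by ring

lemma le_of_sq_le_sq' {a b : ℝ} (h : a ^ 2 ≤ b ^ 2) (hb : 0 ≤ b) : a ≤ b := by
  by_contra hcon
  push Not at hcon
  nlinarith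

lemma e_two_sub {N : ℕ} [NeZero N] {ε : ℝ} (he : ‖e (1 : ZMod N) - 1‖ ≤ ε) :
    ‖e (1 : ZMod N) - 1‖ * (2 - ε) ≤ ‖e (2 : ZMod N) - 1‖ := by
  have h2 : e (2 : ZMod N) - 1 = (e (1 : ZMod N) - 1) * (e (1 : ZMod N) + 1) := by
    have : (2 : ZMod N) = 1 + 1 := by norm_num
    rw [this, e_add]; ring
  rw [h2, norm_mul]
  apply mul_le_mul_of_nonneg_left _ (norm_nonneg _)
  have h3 : (2 : ℂ) = (e (1 : ZMod N) + 1) - (e (1 : ZMod N) - 1) := by ring
  have h5 : ‖(2 : ℂ)‖ ≤ ‖e (1 : ZMod N) + 1‖ + ‖e (1 : ZMod N) - 1‖ := by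
    conv_lhs => rw [h3]
    exact norm_sub_le _ _
  rw [Complex.norm_ofNat] at h5
  linarith

lemma tri_geom {V : Type} [NormedAddCommGroup V] {x0 x1 x2 a b c : V} {s ε δ : ℝ}
    (hxa : ‖x0 - a‖ ≤ ε) (hxb : ‖x1 - b‖ ≤ ε) (hxc : ‖x2 - c‖ ≤ ε)
    (hs1 : ‖x1 - x0‖ = s) (hs2 : ‖x2 - x1‖ = s) (hs3 : 2 * s - ε ≤ ‖x2 - x0‖)
    (hs : s = 1 - 2 * ε) (hε2 : ε ≤ 1 / 10) (hε1 : ε ≤ (1 - δ) / 10) (hε : 0 < ε) :
    ‖a - b‖ ≤ 1 ∧ ‖b - c‖ ≤ 1 ∧ 1 + δ ≤ ‖a - c‖ ∧ a ≠ b ∧ b ≠ c ∧ a ≠ c := by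
  have hab : ‖a - b‖ ≤ 1 := by
    have : a - b = -(x0 - a) - (x1 - x0) + (x1 - b) := by abel
    rw [this]
    refine (norm_add_le _ _).trans ?_
    have := norm_sub_le (-(x0 - a)) (x1 - x0)
    rw [norm_neg] at this
    linarith
  have hbc : ‖b - c‖ ≤ 1 := by
    have : b - c = -(x1 - b) - (x2 - x1) + (x2 - c) := by abel
    rw [this]
    refine (norm_add_le _ _).trans ?_
    have := norm_sub_le (-(x1 - b)) (x2 - x1)
    rw [norm_neg] at this
    linarith
  have hac : 1 + δ ≤ ‖a - c‖ := by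
    have h1 : x2 - x0 = (x2 - c) - (x0 - a) - (a - c) := by abel
    have h2 : ‖x2 - x0‖ ≤ ‖x2 - c‖ + ‖x0 - a‖ + ‖a - c‖ := by
      rw [h1]
      refine (norm_sub_le _ _).trans ?_
      have := norm_sub_le (x2 - c) (x0 - a)
      linarith
    linarith
  refine ⟨hab, hbc, hac, ?_, ?_, ?_⟩
  · rintro rfl
    have : x1 - x0 = (x1 - a) - (x0 - a) := by abel
    have h2 := norm_sub_le (x1 - a) (x0 - a)
    rw [← this, hs1, hs] at h2
    linarith
  · rintro rfl
    have : x2 - x1 = (x2 - b) - (x1 - b) := by abel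
    have h2 := norm_sub_le (x2 - b) (x1 - b)
    rw [← this, hs2, hs] at h2
    linarith
  · rintro rfl
    have : x2 - x0 = (x2 - a) - (x0 - a) := by abel
    have h2 := norm_sub_le (x2 - a) (x0 - a)
    rw [← this] at h2
    linarith

/-- `P(δ)` fails for `δ < 1`. -/
lemma not_P {δ : ℝ} (hδ : δ < 1) : ¬ P δ := by
  rintro ⟨lam, hlam, hP⟩
  classical
  -- `lam ≤ 1`
  set ε : ℝ := min ((1 - δ) / 10) (1 / 10) with hε
  have hεpos : 0 < ε := by rw [hε]; apply lt_min <;> linarith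
  have hε1 : ε ≤ (1 - δ) / 10 := min_le_left _ _
  have hε2 : ε ≤ 1 / 10 := min_le_right _ _
  -- choice of `N`
  obtain ⟨N, hN⟩ := exists_nat_gt (2 * Real.pi / ε + 2)
  have hN2 : 2 ≤ N := by
    have : (2 : ℝ) < N := lt_of_le_of_lt (by
      have : 0 ≤ 2 * Real.pi / ε := by positivity
      linarith) hN
    exact_mod_cast this.le
  have : NeZero N := ⟨by omega⟩
  have hNpos : (0 : ℝ) < N := by positivity
  have he1 : ‖e (1 : ZMod N) - 1‖ ≤ ε := by
    refine e_one_sub.trans ?_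
    rw [div_le_iff₀ hNpos]
    have : 2 * Real.pi / ε < N := by linarith
    rw [div_lt_iff₀ hεpos] at this
    linarith
  have hepos := e_one_ne hN2
  set q := ‖e (1 : ZMod N) - 1‖ with hq
  set s : ℝ := 1 - 2 * ε with hs
  have hspos : 0 < s := by rw [hs]; linarith
  set r : ℝ := s / q with hr
  have hrpos : 0 < r := by positivity
  -- choice of `D`
  obtain ⟨D, hD⟩ := exists_nat_gt (64 * r ^ 4 / (lam * ε ^ 4) + 1)
  have hD0 : 0 ≤ 64 * r ^ 4 / (lam * ε ^ 4) := by positivity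
  have hD1 : (1 : ℝ) < D := by linarith
  have hDpos : 0 < D := by
    have : (0 : ℝ) < D := by linarith
    exact_mod_cast this
  have hDpos' : (0 : ℝ) < D := by exact_mod_cast hDpos
  have hD2 : 64 * r ^ 4 < lam * ε ^ 4 * D := by
    have h1 : 64 * r ^ 4 / (lam * ε ^ 4) < D := by linarith
    rw [div_lt_iff₀ (by positivity)] at h1
    linarith
  set t : ℝ := ε ^ 2 * D / (4 * r ^ 2) with ht
  have htpos : 0 < t := by positivity
  have htD : 4 * (D : ℝ) < lam * t ^ 2 := by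
    have h1 : lam * t ^ 2 = lam * ε ^ 4 * D * D / (16 * r ^ 4) := by
      rw [ht]; field_simp; norm_num
    rw [h1, lt_div_iff₀ (by positivity)]
    nlinarith
  -- the points
  obtain ⟨φ⟩ := exists_isometry (PiLp 2 (fun _ : Fin D => ℂ))
  set X := Fin D → ZMod N with hX
  set M : ℕ := Fintype.card X with hM
  have hMpos : 0 < M := Fintype.card_pos
  have hMpos' : (0 : ℝ) < M := by exact_mod_cast hMpos
  have hMeq : ((Fintype.card (ZMod N) : ℝ)) ^ D = M := by
    have : M = Fintype.card (ZMod N) ^ D := by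
      rw [hM]; exact (Fintype.card_fun).trans (by rw [Fintype.card_fin])
    rw [this]; push_cast; rfl
  let σ : X ≃ Fin M := Fintype.equivFin X
  obtain ⟨I, hIcard, hI⟩ := hP M hMpos (fun i => φ (pt D r (σ.symm i)))
  set A : Finset X := I.map σ.symm.toEmbedding with hA
  have hAcard : (A.card : ℝ) = I.card := by rw [hA, Finset.card_map]
  have hAne : A.Nonempty := by
    rw [← Finset.card_pos]
    have : (0 : ℝ) < A.card := by
      rw [hAcard]
      refine lt_of_lt_of_le ?_ hIcard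
      positivity
    exact_mod_cast this
  -- the far points
  set B : Finset X := {x | ∀ a ∈ A, t ≤ hammingDist x a} with hB
  have hfar := far_points D A hAne t htpos B (by
    intro x hx a ha
    rw [hB, Finset.mem_filter] at hx
    exact hx.2 a ha)
  rw [hMeq] at hfar
  have hBcard : (4 : ℝ) * B.card ≤ M := by
    have h1 : lam * M * B.card * t ^ 2 ≤ D * (M : ℝ) ^ 2 := by
      refine le_trans ?_ hfar
      have : lam * M * B.card ≤ A.card * B.card := by
        rw [hAcard]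
        exact mul_le_mul_of_nonneg_right hIcard (by positivity)
      exact mul_le_mul_of_nonneg_right this (by positivity)
    by_contra hcon
    push Not at hcon
    have h2 : (M : ℝ) * D * (M : ℝ) < lam * M * B.card * t ^ 2 := by
      have h3 : (M : ℝ) * (4 * D) ≤ (4 * B.card) * (4 * D) := by
        apply mul_le_mul_of_nonneg_right hcon.le (by positivity)
      have h4 : (0 : ℝ) < B.card := by linarith
      have h5 : (B.card : ℝ) * (4 * D) < B.card * (lam * t ^ 2) :=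
        mul_lt_mul_of_pos_left htD h4
      nlinarith
    nlinarith
  -- a point `x` such that `x`, `x + 1`, `x + 2` are close to `A`
  let sh : ZMod N → X ≃ X := fun c => ⟨fun x k => x k + c, fun x k => x k - c,
    fun x => by funext k; simp, fun x => by funext k; simp⟩
  have hexx : ∃ x : X, x ∉ B ∧ sh 1 x ∉ B ∧ sh 2 x ∉ B := by
    by_contra hcon
    push Not at hcon
    have hsub : (univ : Finset X) ⊆ B ∪ (B.map (sh 1).symm.toEmbedding ∪
        B.map (sh 2).symm.toEmbedding) := by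
      intro x _
      by_cases h1 : x ∈ B
      · exact Finset.mem_union_left _ h1
      · apply Finset.mem_union_right
        by_cases h2 : sh 1 x ∈ B
        · apply Finset.mem_union_left
          rw [Finset.mem_map]
          exact ⟨sh 1 x, h2, by simp⟩
        · apply Finset.mem_union_right
          rw [Finset.mem_map]
          exact ⟨sh 2 x, hcon x h1 h2, by simp⟩
    have h1 := Finset.card_le_card hsub
    have h2 : (B ∪ (B.map (sh 1).symm.toEmbedding ∪ B.map (sh 2).symm.toEmbedding)).card ≤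
        B.card + (B.card + B.card) := by
      refine (Finset.card_union_le _ _).trans ?_
      refine Nat.add_le_add_left ((Finset.card_union_le _ _).trans ?_) _
      rw [Finset.card_map, Finset.card_map]
    rw [Finset.card_univ, ← hM] at h1
    have h3 : M ≤ 3 * B.card := by omega
    have h4 : (M : ℝ) ≤ 3 * B.card := by exact_mod_cast h3
    nlinarith
  obtain ⟨x, hx0, hx1, hx2⟩ := hexx
  have hnear : ∀ z : X, z ∉ B → ∃ a ∈ A, ‖pt D r z - pt D r a‖ ≤ ε := by
    intro z hz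
    rw [hB, Finset.mem_filter] at hz
    push Not at hz
    obtain ⟨a, ha, hza⟩ := hz (Finset.mem_univ _)
    refine ⟨a, ha, ?_⟩
    have h1 := pt_hamming D r z a
    have h2 : 4 * r ^ 2 / D * hammingDist z a ≤ ε ^ 2 := by
      calc 4 * r ^ 2 / D * hammingDist z a ≤ 4 * r ^ 2 / D * t :=
            mul_le_mul_of_nonneg_left hza.le (by positivity)
        _ = ε ^ 2 := by rw [ht]; field_simp
    exact le_of_sq_le_sq' (h1.trans h2) hεpos.le
  obtain ⟨a, ha, hxa⟩ := hnear x hx0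
  obtain ⟨b, hb, hxb⟩ := hnear (sh 1 x) hx1
  obtain ⟨c, hc, hxc⟩ := hnear (sh 2 x) hx2
  have hs1 : ‖pt D r (sh 1 x) - pt D r x‖ = s := by
    have := pt_shift D hDpos r hrpos.le x 1
    rw [← hq] at this
    rw [hr, div_mul_cancel₀ _ hepos.ne'] at this
    rw [← this]; rfl
  have hs2 : ‖pt D r (sh 2 x) - pt D r (sh 1 x)‖ = s := by
    have := pt_shift D hDpos r hrpos.le (sh 1 x) 1
    rw [← hq] at this
    rw [hr, div_mul_cancel₀ _ hepos.ne'] at this
    rw [← this]
    have h2 : sh 2 x = fun k => sh 1 x k + 1 := by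
      funext k
      simp only [sh, Equiv.coe_fn_mk]
      ring
    rw [h2]
  have hs3 : 2 * s - ε ≤ ‖pt D r (sh 2 x) - pt D r x‖ := by
    have h6 : ‖pt D r (sh 2 x) - pt D r x‖ = r * ‖e (2 : ZMod N) - 1‖ :=
      pt_shift D hDpos r hrpos.le x 2
    rw [h6]
    have h7 := e_two_sub (N := N) (ε := ε) he1
    rw [← hq] at h7
    have h8 : r * q = s := by rw [hr, div_mul_cancel₀ _ hepos.ne']
    have h9 : r * (q * (2 - ε)) ≤ r * ‖e (2 : ZMod N) - 1‖ :=
      mul_le_mul_of_nonneg_left h7 hrpos.le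
    have hs1' : s ≤ 1 := by rw [hs]; linarith
    nlinarith
  obtain ⟨hab, hbc, hac, hab', hbc', hac'⟩ :=
    tri_geom (δ := δ) hxa hxb hxc hs1 hs2 hs3 hs hε2 hε1 hεpos
  have hmem : ∀ z ∈ A, σ z ∈ I := by
    intro z hz
    rw [hA, Finset.mem_map] at hz
    obtain ⟨i, hi, rfl⟩ := hz
    simpa using hi
  refine hI (σ a) (hmem a ha) (σ b) (hmem b hb) (σ c) (hmem c hc)
    (fun h => hab' (congrArg _ (σ.injective h))) (fun h => hbc' (congrArg _ (σ.injective h)))
    (fun h => hac' (congrArg _ (σ.injective h))) ?_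
  left
  simp only [Equiv.symm_apply_apply, ← map_sub, LinearIsometry.norm_map]
  exact ⟨hab, hbc, hac⟩

/-- **The threshold.** For `δ > 0` property `P(δ)` holds if and only if `δ ≥ 1`. So the supremum
`δ*` of the `δ` for which `P(δ)` fails is `1`, and it is not attained: there is no largest such
`δ`. -/
theorem result :
    (∀ δ : ℝ, 0 < δ → (P δ ↔ 1 ≤ δ)) ∧
    IsLUB {δ : ℝ | 0 < δ ∧ ¬ P δ} 1 ∧
    ¬ ∃ δ : ℝ, IsGreatest {δ : ℝ | 0 < δ ∧ ¬ P δ} δ := by
  have h : ∀ δ : ℝ, P δ ↔ 1 ≤ δ := by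
    intro δ
    constructor
    · intro hP
      by_contra hcon
      push Not at hcon
      exact not_P hcon hP
    · exact P_of_one_le
  have hset : {δ : ℝ | 0 < δ ∧ ¬ P δ} = Set.Ioo 0 1 := by
    ext δ
    rw [Set.mem_ofPred_eq, h, Set.mem_Ioo, not_le]
  refine ⟨fun δ _ => h δ, ?_, ?_⟩
  · rw [hset]
    exact isLUB_Ioo one_pos
  · rw [hset]
    rintro ⟨δ, h1, h2⟩
    have h3 : (δ + 1) / 2 ∈ Set.Ioo (0 : ℝ) 1 := by
      constructor <;> [linarith [h1.1]; linarith [h1.2]]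
    have h4 := h2 h3
    linarith [h1.2]

end Pool.Agent.Results.MP_8cfbc5_co.Threshold
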